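import Pool.Agent.Y956.CP.FurL

/-!
# Furstenberg systems of aperiodic multiplicative functions with values `1` and `-1`: one displaced
coordinate and a dilated tuple
-/

set_option autoImplicit false

namespace Pool.Agent.Results.MP_4a7640_nt.DilatedTuples

open MeasureTheory Filter Topology Finset

/-- the numbers `-1`, `0`, `1` -/
abbrev Val : Type := ({-1, 0, 1} : Set ℝ)

/-- the space of two-sided sequences -/
abbrev X : Type := ℤ → Val

/-- the `n`-th power of the shift -/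
def shift (n : ℤ) (x : X) : X := fun k => x (k + n)

/-- the sequence of the values `f n`, `n ≥ 1`, extended by zero -/
noncomputable def seq (f : ℕ → Val) : X := fun n => if 1 ≤ n then f n.toNat else ⟨0, by simp⟩

/-- `μ` is a Furstenberg system of `f`: a weak-star limit, along some sequence `N j → ∞`, of the
logarithmic averages of the point masses at the shifts of the sequence of values of `f` -/
def IsFurstenbergSystem (f : ℕ → Val) (μ : Measure X) : Prop :=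
  IsProbabilityMeasure μ ∧ ∃ N : ℕ → ℕ, Tendsto N atTop atTop ∧ ∀ φ : X → ℝ, Continuous φ →
    Tendsto (fun j => (1 / Real.log (N j : ℝ)) * ∑ n ∈ Icc 1 (N j), (1 / (n : ℝ)) * φ (shift (n : ℤ) (seq f)))
      atTop (𝓝 (∫ x, φ x ∂μ))

/-- multiplicative functions with values `1` and `-1` -/
def IsMult (f : ℕ → Val) : Prop := (∀ n : ℕ, 1 ≤ n → (f n : ℝ) ≠ 0) ∧
  ∀ m n : ℕ, 1 ≤ m → 1 ≤ n → Nat.Coprime m n → (f (m * n) : ℝ) = f m * f n

/-- the distance to every Dirichlet character is infinite -/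
def Aperiodic (f : ℕ → Val) : Prop := ∀ Q : ℕ, 0 < Q → ∀ χ : DirichletCharacter ℂ Q,
  ¬ Summable (fun p : ℕ => if p.Prime then
    (1 - (((f p : ℝ) : ℂ) * (starRingEnd ℂ) (χ (p : ZMod Q))).re) / (p : ℝ) else 0)

open Classical in
/-- the pairs `(h, d)` in `S` for which the displaced coordinate `d` and the coordinates `h * b j` are
correlated -/
noncomputable def exc {k : ℕ} (μ : Measure X) (b : Fin k → ℤ) (ε : ℝ) (S : Finset (ℕ × ℤ)) :
    Finset (ℕ × ℤ) :=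
  S.filter (fun s => ε ≤ |∫ x, (x s.2 : ℝ) * ∏ j : Fin k, (x (b j * s.1) : ℝ) ∂μ|)

lemma val_le (z : Val) : |(z : ℝ)| ≤ 1 := by
  have h := z.2
  simp only [Set.mem_insert_iff, Set.mem_singleton_iff] at h
  rcases h with h | h | h <;> rw [h] <;> simp

lemma seq_nat (f : ℕ → Val) (n : ℕ) (hn : 1 ≤ n) : seq f n = f n := by
  unfold seq
  rw [if_pos (by exact_mod_cast hn), Int.toNat_natCast]

section

variable {f : ℕ → Val} (hf : IsMult f)
include hf

lemma mr_f : Pool.Agent.Y956.CB.MR (fun n => (f n : ℝ)) :=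
  ⟨fun _ => val_le _, fun m n hm hn hc => hf.2 m n hm hn hc⟩

lemma mult_f : Pool.Agent.Y956.CB.Mult1 (fun n => (((f n : ℝ)) : ℂ)) :=
  Pool.Agent.Y956.CM.mr_mult1 (mr_f hf)

end

lemma ext_f (f : ℕ → Val) : Pool.Agent.Y956.CP.Ext (fun n => (((f n : ℝ)) : ℂ))
    (fun z => (((seq f z : Val) : ℝ) : ℂ)) := by
  constructor
  · intro z
    rw [Complex.norm_real, Real.norm_eq_abs]
    exact val_le _
  · intro n hn
    rw [seq_nat f n hn]

lemma aper_f {f : ℕ → Val} (h : Aperiodic f) : Pool.Agent.Y956.CM.AperR (fun n => (f n : ℝ)) := by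
  intro Q hQ χ hs
  exact h Q hQ χ hs

/-- real continuous functions bounded by one: the mean is the integral -/
lemma mean_int {N : ℕ → ℕ} (hN : Tendsto N atTop atTop) {f : ℕ → Val} {μ : Measure X}
    (hlim : ∀ φ : X → ℝ, Continuous φ →
      Tendsto (fun j => (1 / Real.log (N j : ℝ)) * ∑ n ∈ Icc 1 (N j), (1 / (n : ℝ)) *
        φ (shift (n : ℤ) (seq f))) atTop (𝓝 (∫ x, φ x ∂μ)))
    (φ : X → ℝ) (hφ : Continuous φ) (hφ1 : ∀ x, |φ x| ≤ 1) :
    Pool.Agent.Y956.CB.mc (Pool.Agent.Y956.CB.eeLM (Pool.Agent.Y956.CM.lmLM (Pool.Agent.Y956.CM.usq N)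
      (Pool.Agent.Y956.CM.usq_le hN))) (fun n : ℕ => ((φ (shift (n : ℤ) (seq f)) : ℝ) : ℂ)) =
      ((∫ x, φ x ∂μ : ℝ) : ℂ) := by
  apply Pool.Agent.Y956.CM.mc_lim hN
  · exact ⟨1, fun n => by rw [Complex.norm_real, Real.norm_eq_abs]; exact hφ1 _⟩
  · simp only [Complex.ofReal_re]
    exact hlim φ hφ
  · simp only [Complex.ofReal_im]
    have h := hlim (fun _ => 0) continuous_const
    simp only [integral_zero] at h
    exact h

lemma LPQ_one (δ : ℝ) (hδ : 0 ≤ δ) : Pool.Agent.Y956.CP.LPQ (fun _ => 1) 1 δ :=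
  ⟨fun _ => by simp, 1, le_rfl, le_rfl, fun _ => 1, fun _ => by simp, fun _ => rfl, 0, fun x _ _ => by
    simpa using hδ⟩

theorem result (k : ℕ) (ε : ℝ) (hε : 0 < ε) : ∃ C : ℝ, ∃ H₀ : ℕ,
    ∀ f : ℕ → Val, IsMult f → Aperiodic f → ∀ μ : Measure X, IsFurstenbergSystem f μ →
    ∀ (b : Fin k → ℤ) (S : Finset (ℕ × ℤ)), (∀ s ∈ S, 1 ≤ s.1) →
    (∀ s ∈ S, ∀ s' ∈ S, s ≠ s' → s.2 * (s'.1 : ℤ) ≠ s'.2 * (s.1 : ℤ)) →
    ∑ s ∈ exc μ b ε S, 1 / (s.1 : ℝ) ≤ C ∧
    ∀ H : ℕ, H₀ ≤ H → (((exc μ b ε S).filter (fun s => s.1 ≤ H)).card : ℝ) ≤ ε * H := by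
  classical
  obtain ⟨C, H₀, hmain⟩ := Pool.Agent.Y956.CP.seq_ZL k 1 ε hε
  refine ⟨C, H₀, fun f hf ha μ hμ b S hS1 hS2 => ?_⟩
  obtain ⟨hprob, N, hN, hlim⟩ := hμ
  have h1 := hmain N hN (fun _ => 1) (LPQ_one _ (by positivity))
    (fun _ n => (((f n : ℝ)) : ℂ)) (fun _ => mult_f hf) (fun n => (f n : ℝ)) (mr_f hf) (aper_f ha)
    (fun z => (((seq f z : Val) : ℝ) : ℂ)) (fun _ z => (((seq f z : Val) : ℝ) : ℂ)) (ext_f f)
    (fun _ => ext_f f) b S ⟨hS1, hS2⟩
    (fun s => ((∫ x : X, (x s.2 : ℝ) * ∏ j : Fin k, (x (b j * s.1) : ℝ) ∂μ : ℝ) : ℂ)) (by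
      intro s _
      rw [← mean_int hN hlim (fun x : X => (x s.2 : ℝ) * ∏ j : Fin k, (x (b j * s.1) : ℝ)) (by fun_prop) (by
        intro x
        rw [abs_mul, abs_prod]
        exact mul_le_one₀ (val_le _) (by positivity) (prod_le_one (fun _ _ => abs_nonneg _) fun _ _ => val_le _))]
      congr 1
      funext n
      unfold Pool.Agent.Y956.CP.Pz shift
      push_cast
      rw [one_mul, add_comm (n : ℤ)]
      congr 1
      apply prod_congr rfl
      intro j _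
      rw [add_comm (n : ℤ)])
  simp only [Complex.norm_real, Real.norm_eq_abs] at h1
  exact h1

end Pool.Agent.Results.MP_4a7640_nt.DilatedTuples
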