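import Pool.Agent.Y956.CM.Meas

/-!
# Furstenberg systems of aperiodic multiplicative functions with values `1` and `-1`: cubes with one
displaced vertex
-/

set_option autoImplicit false

namespace Pool.Agent.Results.MP_4a7640_nt.DisplacedCubes

open MeasureTheory Filter Topology Finset

/-- the numbers `-1`, `0`, `1` -/
abbrev Val : Type := ({-1, 0, 1} : Set ℝ)

/-- the space of two-sided sequences -/
abbrev X : Type := ℤ → Val

/-- the `n`-th power of the shift -/
def shift (n : ℤ) (x : X) : X := fun k => x (k + n)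

/-- the sequence of the values `f n`, `n ≥ 1`, extended by zero -/
noncomputable def seq (f : ℕ → Val) : X := fun n => if 1 ≤ n then f n.toNat else ⟨0, by simp⟩

/-- `μ` is a Furstenberg system of `f`: a weak-star limit, along some sequence `N j → ∞`, of the
logarithmic averages of the point masses at the shifts of the sequence of values of `f` -/
def IsFurstenbergSystem (f : ℕ → Val) (μ : Measure X) : Prop :=
  IsProbabilityMeasure μ ∧ ∃ N : ℕ → ℕ, Tendsto N atTop atTop ∧ ∀ φ : X → ℝ, Continuous φ →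
    Tendsto (fun j => (1 / Real.log (N j : ℝ)) * ∑ n ∈ Icc 1 (N j), (1 / (n : ℝ)) * φ (shift (n : ℤ) (seq f)))
      atTop (𝓝 (∫ x, φ x ∂μ))

/-- multiplicative functions with values `1` and `-1` -/
def IsMult (f : ℕ → Val) : Prop := (∀ n : ℕ, 1 ≤ n → (f n : ℝ) ≠ 0) ∧
  ∀ m n : ℕ, 1 ≤ m → 1 ≤ n → Nat.Coprime m n → (f (m * n) : ℝ) = f m * f n

/-- the distance to every Dirichlet character is infinite -/
def Aperiodic (f : ℕ → Val) : Prop := ∀ Q : ℕ, 0 < Q → ∀ χ : DirichletCharacter ℂ Q,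
  ¬ Summable (fun p : ℕ => if p.Prime then
    (1 - (((f p : ℝ) : ℂ) * (starRingEnd ℂ) (χ (p : ZMod Q))).re) / (p : ℝ) else 0)

/-- the correlation along a cube with sides `h i` and base point `b`, one vertex `t₀` of which is displaced
(it is based at `a`); only the vertices in `A` occur -/
noncomputable def cube {k : ℕ} (A : Finset (Finset (Fin k))) (t₀ : Finset (Fin k)) (a b : ℤ) (h : Fin k → ℕ)
    (x : X) : ℝ :=
  (∏ t ∈ A.erase t₀, (x (b + ∑ i ∈ t, (h i : ℤ)) : ℝ)) * (x (a + ∑ i ∈ t₀, (h i : ℤ)) : ℝ)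

lemma val_le (z : Val) : |(z : ℝ)| ≤ 1 := by
  have h := z.2
  simp only [Set.mem_insert_iff, Set.mem_singleton_iff] at h
  rcases h with h | h | h <;> rw [h] <;> simp

lemma seq_nat (f : ℕ → Val) (n : ℕ) (hn : 1 ≤ n) : seq f n = f n := by
  unfold seq
  rw [if_pos (by exact_mod_cast hn), Int.toNat_natCast]

section

variable {f : ℕ → Val} (hf : IsMult f)
include hf

lemma mr_f : Pool.Agent.Y956.CB.MR (fun n => (f n : ℝ)) :=
  ⟨fun _ => val_le _, fun m n hm hn hc => hf.2 m n hm hn hc⟩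

lemma mult_f : Pool.Agent.Y956.CB.Mult1 (fun n => (((f n : ℝ)) : ℂ)) :=
  Pool.Agent.Y956.CM.mr_mult1 (mr_f hf)

end

lemma aper_f {f : ℕ → Val} (h : Aperiodic f) : Pool.Agent.Y956.CM.AperR (fun n => (f n : ℝ)) := by
  intro Q hQ χ hs
  exact h Q hQ χ hs

/-- real continuous functions bounded by one: the mean is the integral -/
lemma mean_int {N : ℕ → ℕ} (hN : Tendsto N atTop atTop) {f : ℕ → Val} {μ : Measure X}
    (hlim : ∀ φ : X → ℝ, Continuous φ →
      Tendsto (fun j => (1 / Real.log (N j : ℝ)) * ∑ n ∈ Icc 1 (N j), (1 / (n : ℝ)) *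
        φ (shift (n : ℤ) (seq f))) atTop (𝓝 (∫ x, φ x ∂μ)))
    (φ : X → ℝ) (hφ : Continuous φ) (hφ1 : ∀ x, |φ x| ≤ 1) :
    Pool.Agent.Y956.CB.mc (Pool.Agent.Y956.CB.eeLM (Pool.Agent.Y956.CM.lmLM (Pool.Agent.Y956.CM.usq N)
      (Pool.Agent.Y956.CM.usq_le hN))) (fun n : ℕ => ((φ (shift (n : ℤ) (seq f)) : ℝ) : ℂ)) =
      ((∫ x, φ x ∂μ : ℝ) : ℂ) := by
  apply Pool.Agent.Y956.CM.mc_lim hN
  · exact ⟨1, fun n => by rw [Complex.norm_real, Real.norm_eq_abs]; exact hφ1 _⟩
  · simp only [Complex.ofReal_re]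
    exact hlim φ hφ
  · simp only [Complex.ofReal_im]
    have h := hlim (fun _ => 0) continuous_const
    simp only [integral_zero] at h
    exact h

lemma LPer_one : Pool.Agent.Y956.CB.LPer (fun _ => 1) :=
  ⟨fun _ => by simp, fun ε hε => ⟨1, le_rfl, fun _ => 1, fun _ => by simp, fun _ => rfl, 0,
    fun x _ _ => by simpa using hε.le⟩⟩

theorem result (f : ℕ → Val) (hf : IsMult f) (ha : Aperiodic f) (μ : Measure X) (hμ : IsFurstenbergSystem f μ)
    (k : ℕ) (hk : 1 ≤ k) (A : Finset (Finset (Fin k))) (t₀ : Finset (Fin k)) (a b : ℤ) (hab : a ≠ b) :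
    Tendsto (fun H : ℕ => (1 / (H : ℝ) ^ k) * ∑ h : Fin k → Fin H,
      |∫ x, cube A t₀ a b (fun i => (h i : ℕ)) x ∂μ|) atTop (𝓝 0) := by
  classical
  obtain ⟨hprob, N, hN, hlim⟩ := hμ
  set g : Finset (Fin k) → ℕ → ℂ := fun t n => if t ∈ A then (((f n : ℝ)) : ℂ) else 1 with hg
  have hgm : ∀ t, Pool.Agent.Y956.CB.Mult1 (g t) := by
    intro t
    by_cases ht : t ∈ A
    · have e : g t = fun n => (((f n : ℝ)) : ℂ) := by
        funext n
        simp only [hg, if_pos ht]
      rw [e]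
      exact mult_f hf
    · have e : g t = fun _ => 1 := by
        funext n
        simp only [hg, if_neg ht]
      rw [e]
      exact ⟨fun _ => by simp, fun _ _ _ _ _ => by simp⟩
  -- a shift to the right
  set B : ℕ := a.natAbs + b.natAbs with hB
  set a' := ((B : ℤ) + a).toNat with ha'
  set b' := ((B : ℤ) + b).toNat with hb'
  have ea : ((a' : ℕ) : ℤ) = B + a := Int.toNat_of_nonneg (by omega)
  have eb : ((b' : ℕ) : ℤ) = B + b := Int.toNat_of_nonneg (by omega)
  have hab' : a' ≠ b' := fun h => hab (by omega)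
  have hkey : ∀ h : Fin k → ℕ, Pool.Agent.Y956.CB.mc
      (Pool.Agent.Y956.CB.eeLM (Pool.Agent.Y956.CM.lmLM (Pool.Agent.Y956.CM.usq N)
        (Pool.Agent.Y956.CM.usq_le hN))) (Pool.Agent.Y956.CB.vt (fun _ => 1) t₀ g
          (fun n => (f n : ℝ)) 1 a' b' h) = ((∫ x, cube A t₀ a b h x ∂μ : ℝ) : ℂ) := by
    intro h
    have hc : Continuous (cube A t₀ a b h) := by
      unfold cube
      fun_prop
    have hle : ∀ x : X, |cube A t₀ a b h x| ≤ 1 := by
      intro x
      unfold cube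
      rw [abs_mul, abs_prod]
      exact mul_le_one₀ (prod_le_one (fun _ _ => abs_nonneg _) fun _ _ => val_le _) (abs_nonneg _) (val_le _)
    rw [← mean_int hN hlim (cube A t₀ a b h) hc hle]
    have hΦb : Pool.Agent.Y956.CB.BC (fun n : ℕ => ((cube A t₀ a b h (shift (n : ℤ) (seq f)) : ℝ) : ℂ)) :=
      ⟨1, fun n => by rw [Complex.norm_real, Real.norm_eq_abs]; exact hle _⟩
    rw [← Pool.Agent.Y956.CM.mc_shift _ hΦb B]
    apply Pool.Agent.Y956.CM.mc_congr_large _ _ _ 1
    · intro n hn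
      unfold Pool.Agent.Y956.CB.vt cube shift
      rw [one_mul]
      push_cast
      congr 1
      · have e0 : ∏ t ∈ (univ : Finset (Finset (Fin k))).erase t₀, g t (1 * n + b' + ∑ i ∈ t, h i) =
            ∏ t ∈ A.erase t₀, (((f (1 * n + b' + ∑ i ∈ t, h i) : ℝ)) : ℂ) := by
          rw [← prod_subset (erase_subset_erase t₀ (subset_univ A))]
          · apply prod_congr rfl
            intro t ht
            simp only [hg, if_pos (mem_of_mem_erase ht)]
          · intro t ht ht'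
            have hA : t ∉ A := fun h => ht' (mem_erase.2 ⟨(mem_erase.1 ht).1, h⟩)
            simp only [hg, if_neg hA]
        rw [e0]
        apply prod_congr rfl
        intro t _
        have e1 : b + ∑ i ∈ t, (h i : ℤ) + ((n : ℤ) + B) = ((1 * n + b' + ∑ i ∈ t, h i : ℕ) : ℤ) := by
          push_cast
          rw [eb]
          ring
        rw [e1, seq_nat f _ (by omega)]
      · have e1 : a + ∑ i ∈ t₀, (h i : ℤ) + ((n : ℤ) + B) = ((1 * n + a' + ∑ i ∈ t₀, h i : ℕ) : ℤ) := by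
          push_cast
          rw [ea]
          ring
        rw [e1, seq_nat f _ (by omega)]
    · exact Pool.Agent.Y956.CB.vt_BC t₀ (fun t n => (hgm t).1 n) (fun n => val_le _) 1 a' b' h
        ⟨1, fun _ => by simp⟩
    · obtain ⟨C, hC⟩ := hΦb
      exact ⟨C, fun n => hC _⟩
  have h1 := Pool.Agent.Y956.CM.seq_R hN g hgm (fun n => (f n : ℝ)) (mr_f hf) (aper_f ha) k hk 1 le_rfl
    a' b' hab' t₀ (fun t => t) (fun _ => 1) LPer_one (fun h => ((∫ x, cube A t₀ a b h x ∂μ : ℝ) : ℂ)) hkey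
  simp only [Complex.norm_real, Real.norm_eq_abs] at h1
  exact h1

end Pool.Agent.Results.MP_4a7640_nt.DisplacedCubes
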